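import Pool.Agent.Lib.MP_ae0f86_nt.GC.Final

/-!
# The integrals over one maximal cycle of the tensor powers

`A` is an abelian rigid tensor category, for instance the category of Nori motives over the field
`QBar` of algebraic numbers, with a de Rham fibre functor `HdR`, a Betti fibre functor `HB` and a
comparison isomorphism `c` (`Lib/MP_ae0f86_nt/Periods.lean`).

For a cycle `γ ∈ H_B(W)^∨` for an object `W` let

* `P(γ) = cycleIndependent c γ` be the dimension over `QBar` of the vector space of the integrals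
  `γ(ω)`, `ω ∈ H_dR(W)`, and
* `N(γ) = cycleExpected HB γ` be the least rank of an object `Q` such that `γ` is the inverse image
  of an element of `H_B(Q)^∨` under a morphism `W ⟶ Q`; this is the dimension of the vector space of
  the integrals over `γ` which the period conjecture predicts

(`Lib/MP_ae0f86_nt/GC/Defs.lean`), and let `N(W) = expected HB W`, `P(W) = independent c W` be the
predicted and the actual dimension of the vector space spanned by all periods of `W`.
`Trivially HdR HB ω γ` says that `ω ∈ H_dR(W')` for a subobject `W'` of `W` such that `γ` is zero on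
`H_B(W')`; then `γ(ω) = 0`.  The cycle `γ` is maximal (`MaximalCycle`, `Lib/MP_ae0f86_nt/GC/Max.lean`) if no cycle for `W` has a larger `N`.
`ForGeneric HB W S` says that `S` holds for all cycles for `W` outside the zero set of a nonzero
polynomial.

The theorem says that the integrals over a single maximal cycle `γ_n` for the tensor power
`(1 ⊕ M)^{⊗ n}`, for each `n`, know everything about Q1 for `M`.
-/

open CategoryTheory CategoryTheory.Limits MonoidalCategory Opposite
open Pool.Agent.Lib.MP_ae0f86_nt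

universe v u

namespace Pool.Agent.Results.MP_ae0f86_nt.CycleLaw

/-- `P(γ) ≤ N(γ)` for every cycle `γ`, with equality if and only if the integrals over `γ` vanish only
for trivial reasons.

Let `M` be an object of `A` of rank `b` and `T = 1 ⊕ M`.  There are natural numbers `r`, `g`,
`t` such that:

* `X(M)` has exactly `r` connected components, `1 ≤ r`; `dim G(M) = g`, and `t ≤ g` is the
  transcendence degree over `ℚ` of the field generated by the periods of `M`;
* if `t = g` then `N(γ) ≤ r * P(γ)` for all cycles `γ` for all objects of `⟨M⟩`; there is a cycle `γ`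
  for an object of `⟨M⟩` with `N(γ) = r` and `P(γ) = 1`;
* generic cycles are maximal; every period of `T^{⊗ m}` is an integral over each generic cycle for
  `T^{⊗ n}` if `m + b ^ 2 ≤ n + 1`;
* for maximal cycles `γ` for `T^{⊗ n}` the number `N(γ)` is of the exact order `n ^ g`, between
  `N(T^{⊗ m})`, `m + b ^ 2 ≤ n + 1`, and `N(T^{⊗ n})`; and `P(γ)` is at most of the order `n ^ t`, and
  of this order for generic `γ`; if `t = g` then `1 / r ≤ P(γ) / N(γ) ≤ 1 / r + C / (n + 1)`;
* if `γ n` is a maximal cycle for `T^{⊗ n}` for every `n` then `P(γ n) / N(γ n)` converges to `1 / r`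
  if `t = g`, and to `0` if `t < g`; the dimension formula `dim G(M) = trdeg ℚ(Per M)` holds if and
  only if there is a `δ > 0` with `P(γ n) ≥ δ * N(γ n)` for infinitely many `n`; and the following are
  equivalent: (1) Q1 for `M`; (2) there is a `δ > 1 / 2` with `P(γ n) ≥ δ * N(γ n)` for infinitely
  many `n`; (3) for infinitely many `n` the integrals over `γ n` vanish only for trivial reasons;
  (4) `N(γ) < 2 * P(γ)` for all nonzero cycles `γ` for all objects of `⟨M⟩`. -/
theorem result {A : Type u} [Category.{v} A] [Abelian A] [Linear ℚ A] [MonoidalCategory A]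
    [SymmetricCategory A] [RigidCategory A]
    {HdR : A ⥤ ModuleCat.{0} QBar} {HB : A ⥤ ModuleCat.{0} ℚ}
    [FibreFunctor HdR] [FibreFunctor HB] (c : Comparison HdR HB) (M : A) :
    (∀ (W : A) (γ : BDual HB W), cycleIndependent c γ ≤ cycleExpected HB γ ∧
      (cycleIndependent c γ = cycleExpected HB γ ↔
        ∀ ω : HdR.obj W, c.val ω γ = 0 → Trivially HdR HB ω γ)) ∧
    ∃ r g t : ℕ, 1 ≤ r ∧ t ≤ g ∧
      Finite (_root_.ConnectedComponents (PrimeSpectrum (PerAlg HdR HB (Gen M)))) ∧
      components HdR HB M = r ∧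
      ringKrullDim (PerAlg HB HB (Gen M)) = g ∧
      Algebra.trdeg ℚ (IntermediateField.adjoin ℚ (c.Per M)) = (t : Cardinal) ∧
      (t = g → ∀ W : A, Gen M W → ∀ γ : BDual HB W,
        cycleExpected HB γ ≤ r * cycleIndependent c γ) ∧
      (∃ (W : A) (γ : BDual HB W), Gen M W ∧ cycleExpected HB γ = r ∧
        cycleIndependent c γ = 1) ∧
      (∀ W : A, ForGeneric HB W (MaximalCycle HB)) ∧
      (∀ n : ℕ, ForGeneric HB (tpow (𝟙_ A ⊞ M) n) fun γ => ∀ m : ℕ,
        m + Module.finrank ℚ (HB.obj M) ^ 2 ≤ n + 1 →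
          independent c (tpow (𝟙_ A ⊞ M) m) ≤ cycleIndependent c γ ∧
          ∀ z ∈ c.Per (tpow (𝟙_ A ⊞ M) m),
            ∃ ω : HdR.obj (tpow (𝟙_ A ⊞ M) n), c.val ω γ = z) ∧
      (∀ (n : ℕ) (γ : BDual HB (tpow (𝟙_ A ⊞ M) n)), MaximalCycle HB γ →
        cycleExpected HB γ ≤ expected HB (tpow (𝟙_ A ⊞ M) n) ∧
        ∀ m : ℕ, m + Module.finrank ℚ (HB.obj M) ^ 2 ≤ n + 1 →
          expected HB (tpow (𝟙_ A ⊞ M) m) ≤ cycleExpected HB γ) ∧
      (∃ a b : ℝ, 0 < a ∧
        (∀ (n : ℕ) (γ : BDual HB (tpow (𝟙_ A ⊞ M) n)), MaximalCycle HB γ →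
          a * ((n : ℝ) + 1) ^ g ≤ cycleExpected HB γ ∧
          (cycleExpected HB γ : ℝ) ≤ b * ((n : ℝ) + 1) ^ g ∧
          (cycleIndependent c γ : ℝ) ≤ b * ((n : ℝ) + 1) ^ t) ∧
        ∀ n : ℕ, ForGeneric HB (tpow (𝟙_ A ⊞ M) n) fun γ =>
          a * ((n : ℝ) + 1) ^ t ≤ cycleIndependent c γ) ∧
      (t = g → ∃ C : ℝ, ∀ (n : ℕ) (γ : BDual HB (tpow (𝟙_ A ⊞ M) n)), MaximalCycle HB γ →
        (1 : ℝ) / r ≤ (cycleIndependent c γ : ℝ) / cycleExpected HB γ ∧
        (cycleIndependent c γ : ℝ) / cycleExpected HB γ ≤ 1 / r + C / ((n : ℝ) + 1)) ∧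
      ∀ γ : ∀ n : ℕ, BDual HB (tpow (𝟙_ A ⊞ M) n), (∀ n, MaximalCycle HB (γ n)) →
        Filter.Tendsto (fun n => (cycleIndependent c (γ n) : ℝ) / cycleExpected HB (γ n))
          Filter.atTop (nhds (if t = g then (1 : ℝ) / r else 0)) ∧
        (DimensionFormula c M ↔ ∃ δ : ℝ, 0 < δ ∧ ∃ᶠ n in Filter.atTop,
          δ * (cycleExpected HB (γ n) : ℝ) ≤ cycleIndependent c (γ n)) ∧
        List.TFAE [
          PeriodConjecture c M,
          ∃ δ : ℝ, 1 / 2 < δ ∧ ∃ᶠ n in Filter.atTop,
            δ * (cycleExpected HB (γ n) : ℝ) ≤ cycleIndependent c (γ n),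
          ∃ᶠ n in Filter.atTop, ∀ ω : HdR.obj (tpow (𝟙_ A ⊞ M) n), c.val ω (γ n) = 0 →
            Trivially HdR HB ω (γ n),
          ∀ W : A, Gen M W → ∀ γ' : BDual HB W, γ' ≠ 0 →
            cycleExpected HB γ' < 2 * cycleIndependent c γ'] :=
  GC.genericLaw c M

end Pool.Agent.Results.MP_ae0f86_nt.CycleLaw
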