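import Pool.Agent.Lib.MP_ae0f86_nt.F.Main

/-!
# The period conjecture and massless Feynman graphs in four dimensions

`A` is an abelian rigid tensor category, for instance the category of Nori motives over the field
`QBar` of algebraic numbers, with a de Rham fibre functor `HdR`, a Betti fibre functor `HB` and a
comparison isomorphism `c` (`Lib/MP_ae0f86_nt/Periods.lean`), and `T` is a motivic cohomology
theory `h^i(X, Y)` for pairs of affine varieties over `QBar` with values in `A`, with Artin
vanishing and the Lefschetz hyperplane theorem (`Lib/MP_ae0f86_nt/Theory.lean` and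
`Lib/MP_ae0f86_nt/F/Defs.lean`, where the sources for Nori motives are listed).  Feynman graphs
and walls are defined in `Lib/MP_ae0f86_nt/F/Defs.lean`.  The proof is in
`Lib/MP_ae0f86_nt/F/Main.lean` and the files `Lib/MP_ae0f86_nt/F/P/*.lean`; the statements of its
steps, with proofs in words, are in `Lib/MP_ae0f86_nt/F/Stm.lean`.

A Feynman graph `G` (massless, in four dimensions, with integral external momenta) is a finite
directed graph with momenta `a e ∈ ℤ^4`, the external momenta distributed over the edges. The loop
momentum space of `G`, the space of the flows `(k_e)` with values in the four-vectors, has dimension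
`4 b`, where `b = G.loops` is the first Betti number of `G`.  The propagator of the edge `e` is
`1 / (k_e + a_e)^2`.  `G.compl` is the complement of all the quadrics `(k_e + a_e)^2 = 0` in the
loop momentum space, and `G.cut` (the maximal cut) is their intersection. `G.Irreducible` says that
`G` is one-particle irreducible, i.e. connected and without bridges.
-/

open CategoryTheory CategoryTheory.Limits MonoidalCategory Opposite
open Pool.Agent.Lib.MP_ae0f86_nt

universe v u

namespace Pool.Agent.Results.MP_ae0f86_nt.Feynman

/-- (a) There is a nonzero period `λ` of `L = h^1(G_m, 1)` such that for every object `N` of `A`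
there are a massless one-particle irreducible Feynman graph `G` in four dimensions with integral
external momenta and `e ≥ 0` such that `N ⊗ L^e` is a subquotient of `h^(4b)(G.compl)`, `b` the
number of loops of `G`, and `λ^e z` is a period of `h^(4b)(G.compl)` for every period `z` of `N`.

(b) Every system `p` of polynomial equations with integer coefficients is, up to isomorphism, the
maximal cut of such a graph.

(c) The following are equivalent: 1. Grothendieck's period conjecture (Q1) for all objects of `A`;
2. injectivity of the evaluation on the formal period algebra of `A`; 3. Q1 for `h^(4b)(G.compl)`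
for all such graphs `G`; 4. for these objects the dimension of the space spanned by the periods
is the dimension of the endomorphism algebra of `H_B` on the subquotients of powers; 5. a period
of these objects vanishes only for a trivial reason; 6, 7, 8. the same as 3, 4, 5 for `h^i(G.cut)`,
all such `G` and all `i`; 9, 10, 11. the same for `h^n(U)`, `U` the complement in affine `n`-space
of finitely many hypersurfaces `w_i + w_j = w_l + d`, `w_i w_j = w_l + d` (`d ∈ {0, 1}`); 12, 13, 14.
the same for `h^i(V)`, `V = {(x, y) | ∑ y_j q_j(x) = 1}`, `q_j` polynomials of degree at most `2`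
with coefficients in `{0, 1, -1}`. -/
theorem result {A : Type u} [Category.{v} A] [Abelian A] [Linear ℚ A] [MonoidalCategory A]
    [MonoidalPreadditive A] [SymmetricCategory A] [RigidCategory A]
    {HdR : A ⥤ ModuleCat.{0} QBar} {HB : A ⥤ ModuleCat.{0} ℚ}
    [FibreFunctor HdR] [FibreFunctor HB] (c : Comparison HdR HB) (T : CohTheoryL QBar A) :
    (∃ lam ∈ c.Per T.L, lam ≠ 0 ∧
      ∀ N : A, ∃ (e : ℕ) (G : Pool.Agent.Lib.MP_ae0f86_nt.Feynman), G.Irreducible ∧
        IsSubquot (N ⊗ tpow T.L e) (G.top T.toCohTheory) ∧
        ∀ z ∈ c.Per N, lam ^ e * z ∈ c.Per (G.top T.toCohTheory)) ∧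
    (∀ {σ : Type} [Finite σ] (p : List (MvPolynomial σ ℤ)),
      ∃ G : Pool.Agent.Lib.MP_ae0f86_nt.Feynman, G.Irreducible ∧ Nonempty (G.cut QBar ≅
        AffPair.abs (zs_alg (p.map (MvPolynomial.map (Int.castRingHom QBar)))))) ∧
    List.TFAE [
      ∀ M : A, PeriodConjecture c M,
      EvInjective c,
      ForFeynman T.toCohTheory (PeriodConjecture c),
      ForFeynman T.toCohTheory (PeriodDimension c),
      ForFeynman T.toCohTheory (VanishTrivially c),
      ForCuts T.toCohTheory (PeriodConjecture c),
      ForCuts T.toCohTheory (PeriodDimension c),
      ForCuts T.toCohTheory (VanishTrivially c),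
      ForWalls T.toCohTheory (PeriodConjecture c),
      ForWalls T.toCohTheory (PeriodDimension c),
      ForWalls T.toCohTheory (VanishTrivially c),
      ForCubics T.toCohTheory (PeriodConjecture c),
      ForCubics T.toCohTheory (PeriodDimension c),
      ForCubics T.toCohTheory (VanishTrivially c)] :=
  ⟨F.main_uni c T, fun p => F.main_cut p, F.main c T⟩

end Pool.Agent.Results.MP_ae0f86_nt.Feynman
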