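import Pool.Agent.Lib.MP_ae0f86_nt.F.FinalS
import Pool.Agent.Lib.MP_ae0f86_nt.GC.Final

/-!
# The period conjecture and one cycle on each member of one sequence of Feynman graphs

`A` is an abelian rigid tensor category, for instance the category of Nori motives over the field
`QBar` of algebraic numbers, with a de Rham fibre functor `HdR`, a Betti fibre functor `HB` and a
comparison isomorphism `c` (`Lib/MP_ae0f86_nt/Periods.lean`), and `T` is a motivic cohomology
theory `h^i(X, Y)` for pairs of affine varieties over `QBar` with values in `A`, with Artin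
vanishing and the Lefschetz hyperplane theorem (`Lib/MP_ae0f86_nt/Theory.lean` and
`Lib/MP_ae0f86_nt/F/Defs.lean`, where the sources for Nori motives and the definition of a Feynman
graph can be found) and with the Künneth formula (`KunnethAffine`).

For a cycle `γ ∈ H_B(W)^∨` the number `P(γ) = integralRank c γ` is the dimension over `QBar` of the
space of the integrals `γ(ω)`, `ω ∈ H_dR(W)`, and `N(γ) = expectedRank HB γ` is the least rank of a
`Q` such that `γ` is the inverse image of an element of `H_B(Q)^∨` under a morphism `W ⟶ Q`: this is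
the value of `P(γ)` which the period conjecture predicts.  `P(γ) ≤ N(γ)` always holds.

`G` is a massless one-particle irreducible Feynman graph in four dimensions with `b` loops and
integral external momenta, and `F(G) = G.top = h^(4b)(U_G)`, where `U_G` is the complement of the
propagators in the loop momentum space.  These graphs have sums (`Feynman.IsSum`, for instance the
one-vertex join), and `F` takes sums to tensor products.

The theorem is the combination of the universality of the `F(G)` (our hand-in `Feynman`) with the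
law of the generic rows of the period matrices of tensor powers (`Lib/MP_ae0f86_nt/GC`).  The
definitions are in `Lib/MP_ae0f86_nt/F/Sum.lean`, the proof is in `Lib/MP_ae0f86_nt/F/FinalS.lean`
and the files it imports.
-/

open CategoryTheory CategoryTheory.Limits MonoidalCategory Opposite Filter
open Pool.Agent.Lib.MP_ae0f86_nt

universe v u

namespace Pool.Agent.Results.MP_ae0f86_nt.FeynmanSequence

/-- (1) There are lists `H_0, H_1, ...` of all graphs `G` with `F(G) ≠ 0`, up to isomorphism.

(2) `P(γ) ≤ N(γ)` for all cycles `γ ∈ H_B(W)^∨`, and `N(γ)` is maximal for generic `γ`, i.e. for all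
`γ` outside the zero set of a polynomial in the coordinates of `γ` which does not vanish on all of
`H_B(W)^∨`.

(3) Let `H` be such a list, `b_k` the product of the ranks of `F(H_0), ..., F(H_k)`, and
`n_k / b_k^5 → ∞`. There are irreducible graphs `G_k` which are sums of `n_k + 1` copies of each of
`H_0, ..., H_k`. Let `G_k` be any such graphs and `γ_k ∈ H_B(F(G_k))^∨` any cycles with `N(γ_k)`
maximal. Then `P(γ_k) / N(γ_k)` tends to `inf_M 1 / (number of components of X(M))` if
`dim G(M) = trdeg ℚ(Per M)` for all `M`, and to `0` otherwise. For `δ > 0` the following are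
equivalent: for all `M` the dimension formula holds and `δ #comp X(M) ≤ 1`; `δ N(γ) ≤ P(γ)` for all
cycles of all `W`; the same for all cycles of all `F(G)`; `δ N(γ_k) ≤ P(γ_k)` for infinitely many
`k`. The following are equivalent: Q1 for all `M`; `P(γ_k) = N(γ_k)` for all `k`; for infinitely
many `k` the integrals over `γ_k` vanish only for trivial reasons; `δ N(γ_k) ≤ P(γ_k)` for
infinitely many `k`, for one `δ > 1/2`. -/
theorem result {A : Type u} [Category.{v} A] [Abelian A] [Linear ℚ A] [MonoidalCategory A]
    [MonoidalPreadditive A] [SymmetricCategory A] [RigidCategory A]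
    {HdR : A ⥤ ModuleCat.{0} QBar} {HB : A ⥤ ModuleCat.{0} ℚ}
    [FibreFunctor HdR] [FibreFunctor HB] (c : Comparison HdR HB) (T : CohTheoryL QBar A)
    (hK : T.toCohTheory.KunnethAffine) :
    (∃ H : ℕ → Feynman, Feynman.Listing T.toCohTheory H) ∧
    (∀ W : A, (∀ γ : BDual HB W, integralRank c γ ≤ expectedRank HB γ) ∧
      ∃ p : MvPolynomial (HB.obj W) ℚ,
        (∃ γ : BDual HB W, MvPolynomial.eval (fun x => γ x) p ≠ 0) ∧
        ∀ γ : BDual HB W, MvPolynomial.eval (fun x => γ x) p ≠ 0 →
          ∀ γ' : BDual HB W, expectedRank HB γ' ≤ expectedRank HB γ) ∧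
    ∀ H : ℕ → Feynman, Feynman.Listing T.toCohTheory H → ∀ n : ℕ → ℕ,
      Tendsto (fun k => (n k : ℝ) / (∏ j ∈ Finset.range (k + 1),
        (Module.finrank ℚ (HB.obj ((H j).top T.toCohTheory)) : ℝ)) ^ 5) atTop atTop →
      (∀ k, ∃ G : Feynman, G.Irreducible ∧
        Feynman.IsSum (fun i : Fin (n k + 1) × Fin (k + 1) => H i.2) G) ∧
      ∀ G : ℕ → Feynman, (∀ k, (G k).Irreducible ∧
        Feynman.IsSum (fun i : Fin (n k + 1) × Fin (k + 1) => H i.2) (G k)) →
      ∀ γ : ∀ k, BDual HB ((G k).top T.toCohTheory),
      (∀ k (γ' : BDual HB ((G k).top T.toCohTheory)),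
        expectedRank HB γ' ≤ expectedRank HB (γ k)) →
      ((∀ M : A, DimTrdeg c M) →
        Tendsto (fun k => (integralRank c (γ k) : ℝ) / expectedRank HB (γ k)) atTop
          (nhds (⨅ M : A, (1 : ℝ) / numComponents HdR HB M))) ∧
      ((∃ M : A, ¬ DimTrdeg c M) →
        Tendsto (fun k => (integralRank c (γ k) : ℝ) / expectedRank HB (γ k)) atTop
          (nhds 0)) ∧
      (∀ δ : ℝ, 0 < δ → List.TFAE [
        ∀ M : A, DimTrdeg c M ∧ δ * (numComponents HdR HB M : ℝ) ≤ 1,
        ∀ (W : A) (γ' : BDual HB W), δ * (expectedRank HB γ' : ℝ) ≤ integralRank c γ',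
        ∀ G : Feynman, G.Irreducible → ∀ γ' : BDual HB (G.top T.toCohTheory),
          δ * (expectedRank HB γ' : ℝ) ≤ integralRank c γ',
        ∃ᶠ k in atTop, δ * (expectedRank HB (γ k) : ℝ) ≤ integralRank c (γ k)]) ∧
      List.TFAE [
        ∀ M : A, PeriodConjecture c M,
        ∀ k, integralRank c (γ k) = expectedRank HB (γ k),
        ∃ᶠ k in atTop, ∀ ω : HdR.obj ((G k).top T.toCohTheory),
          c.val ω (γ k) = 0 → Trivially HdR HB ω (γ k),
        ∃ δ : ℝ, 1 / 2 < δ ∧
          ∃ᶠ k in atTop, δ * (expectedRank HB (γ k) : ℝ) ≤ integralRank c (γ k)] :=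
  F.final_S c (GC.glawmax c) (GC.gmax c) (GC.g_cmp c).1 (GC.gtriv c) T hK

end Pool.Agent.Results.MP_ae0f86_nt.FeynmanSequence
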