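import Pool.Agent.Lib.MP_ae0f86_nt.GC.Final

/-!
# Q1 and single integrals over one maximal cycle

`A` is an abelian rigid tensor category, for instance the category of Nori motives over the field
`QBar` of algebraic numbers, with a de Rham fibre functor `HdR`, a Betti fibre functor `HB` and a
comparison isomorphism `c` (`Lib/MP_ae0f86_nt/Periods.lean`), `g` is a grading of the tensor functor `HdR`
with its filtration `g.F`, for instance a splitting of the Hodge filtration, and `Λ` is a
Lefschetz object: for Nori motives `Λ.L = h¹(G_m) = 1(-1)`, with the period `Λ.period = 2 π i`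
(`Lib/MP_ae0f86_nt/S/Defs.lean`).

`T` is an object such that `⟨T⟩` is semisimple and `T ≅ T^∨ ⊗ L^{⊗ w}`.  Examples for Nori motives:
`T = H^w(X)` for a smooth projective variety `X` over `QBar` (pure Nori motives are semisimple; hard
Lefschetz theorem and Poincaré duality), and `T^{⊗ 2n}` is a Künneth component of `H^{2wn}(X^{2n})`; or
`T = H^*(X)`, `w = dim X`, and `T^{⊗ 2n} = H^*(X^{2n})`; or `T = 1 ⊕ M ⊕ M^∨` and `w = 0` for any `M` with
`⟨M⟩` semisimple.

`UnexpectedOver Λ w T n γ` (`Lib/MP_ae0f86_nt/S/Defs2.lean`) says that `(2 π i)^{w n}` is the integral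
`γ(ω)` of a form `ω ∈ F^{w n} H_dR(T^{⊗ 2n})` over the cycle `γ ∈ H_B(T^{⊗ 2n})^∨`, although `ω` is killed by
all morphisms `T^{⊗ 2n} ⟶ L^{⊗ w n}`, such as the integration over algebraic cycles.

`N(γ) = cycleExpected HB γ` (`Lib/MP_ae0f86_nt/GC/Defs.lean`) is the least rank of an object `Q` such that the
cycle `γ ∈ H_B(W)^∨` is the inverse image of an element of `H_B(Q)^∨` under a morphism `W ⟶ Q`: the number
of linearly independent integrals over `γ` which the period conjecture predicts.  A cycle `γ` is
maximal (`MaximalCycle`, `Lib/MP_ae0f86_nt/GC/Max.lean`) if no cycle for `W` has a larger `N`.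
`ForGeneric HB W S` says that `S` holds for all cycles for `W` outside the zero set of a nonzero
polynomial.

`independent c W` is the dimension of the space spanned by the periods of `W`, `expected HB W` the
predicted number; they are equal if and only if all linear relations between the periods of `W` are
of motivic origin.
-/

open CategoryTheory CategoryTheory.Limits MonoidalCategory Opposite
open Pool.Agent.Lib.MP_ae0f86_nt

universe v u

namespace Pool.Agent.Results.MP_ae0f86_nt.MaximalIntegrals

/-- Generic cycles are maximal.  Let `T` be an object of rank `b` such that `⟨T⟩` is semisimple and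
`T ≅ T^∨ ⊗ L^{⊗ w}`.

* If the periods of `T^{⊗ 2n}` are as linearly independent over `QBar` as expected then no cycle for
  `T^{⊗ 2n}` is unexpected.
* If `k ≤ n`, `(2 k + 1)^{b^2} ≤ 2^⌊(n - k) / 2⌋` and one maximal cycle for `T^{⊗ 2n}` is not unexpected,
  then the periods of `T^{⊗ k}` are as independent as expected.
* If `γ n` is a maximal cycle for `T^{⊗ 2n}` for every `n`, the following are equivalent: (1) for every
  `n` the periods of `T^{⊗ n}` are as linearly independent over `QBar` as expected; (2) no cycle for
  `T^{⊗ 2n}` is unexpected, for all `n`; (3) infinitely many of the cycles `γ n` are not unexpected.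
  If they hold then the dimension of `G(T)` is at most the transcendence degree of `ℚ(Per T)` plus
  one.  If the unit object is a subquotient of a sum of copies of `T`, as for `T = H^*(X)`, they are
  equivalent to Q1 for `T`. -/
theorem result {A : Type u} [Category.{v} A] [Abelian A] [Linear ℚ A] [MonoidalCategory A]
    [SymmetricCategory A] [RigidCategory A]
    {HdR : A ⥤ ModuleCat.{0} QBar} {HB : A ⥤ ModuleCat.{0} ℚ}
    [FibreFunctor HdR] [FibreFunctor HB] (c : Comparison HdR HB) (g : TensorGrading HdR)
    (Λ : Lefschetz c g) (w : ℕ) (T : A) (hss : SemisimpleGen T)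
    (hT : Nonempty (T ≅ Tᘁ ⊗ tpow Λ.L w)) :
    (∀ W : A, ForGeneric HB W (MaximalCycle HB)) ∧
    (∀ n γ, independent c (tpow T (2 * n)) = expected HB (tpow T (2 * n)) →
      ¬ UnexpectedOver Λ w T n γ) ∧
    (∀ k n γ, k ≤ n → (2 * k + 1) ^ (Module.finrank ℚ (HB.obj T) ^ 2) ≤ 2 ^ ((n - k) / 2) →
      MaximalCycle HB γ → ¬ UnexpectedOver Λ w T n γ →
        independent c (tpow T k) = expected HB (tpow T k)) ∧
    ∀ γ : ∀ n, BDual HB (tpow T (2 * n)), (∀ n, MaximalCycle HB (γ n)) →
      List.TFAE [
        ∀ n, independent c (tpow T n) = expected HB (tpow T n),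
        ∀ n γ', ¬ UnexpectedOver Λ w T n γ',
        ∃ᶠ n in Filter.atTop, ¬ UnexpectedOver Λ w T n (γ n)] ∧
      ((∃ᶠ n in Filter.atTop, ¬ UnexpectedOver Λ w T n (γ n)) →
        ringKrullDim (PerAlg HB HB (Gen T)) ≤
          ((Cardinal.toENat (Algebra.trdeg ℚ (IntermediateField.adjoin ℚ (c.Per T))) : ℕ∞) :
            WithBot ℕ∞) + 1) ∧
      (Lin T (𝟙_ A) →
        (PeriodConjecture c T ↔ ∃ᶠ n in Filter.atTop, ¬ UnexpectedOver Λ w T n (γ n))) :=
  GC.maximalIntegrals c g Λ w T hss hT

end Pool.Agent.Results.MP_ae0f86_nt.MaximalIntegrals
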